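import Pool.Agent.Lib.MP_263316_co.EX.All

/-!
The low coefficients of all e-coefficients of the chromatic quasisymmetric functions of all natural
unit interval graphs are nonnegative and weakly increasing.
-/

set_option autoImplicit false

namespace Pool.Agent.Results.MP_263316_co.LowCoefficients

/-- For every natural unit interval order on `n` points (`h` monotone, `i ≤ h i`; `i < j` are
adjacent in the incomparability graph iff `j ≤ h i`), with `E` edges and `c` components (vertices
without a neighbour to the left): the chromatic quasisymmetric function (in `n` variables) is the sum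
over the partitions `μ` of `n` of `a μ * e_μ`, and for every `μ` with `l` parts and smallest part `s`:
the coefficients of `q ^ j`, `j < l - c`, in `a μ` are zero, the coefficients of
`1, q, ..., q ^ (l - c + s - 1)` are nonnegative and weakly increasing, the coefficients of
`1, q, q ^ 2` are nonnegative, and weakly increasing if the graph is connected and has at least four
edges. -/
theorem result : ∀ (n : ℕ) (h : Fin n → Fin n), Monotone h → (∀ i, i ≤ h i) →
    ∀ E c : ℕ, E = (Finset.univ.filter (fun p : Fin n × Fin n => p.1 < p.2 ∧ p.2 ≤ h p.1)).card →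
    c = (Finset.univ.filter (fun i : Fin n => ∀ j : Fin n, j < i → h j < i)).card →
    ∃ a : Nat.Partition n → Polynomial ℤ,
      ((∑ κ ∈ (Finset.univ.filter
            (fun κ : Fin n → Fin n => ∀ i j : Fin n, i < j → j ≤ h i → κ i ≠ κ j)),
          MvPolynomial.C (Polynomial.X ^ ((Finset.univ.filter
            (fun p : Fin n × Fin n => p.1 < p.2 ∧ p.2 ≤ h p.1 ∧ κ p.1 < κ p.2)).card))
            * ∏ i : Fin n, MvPolynomial.X (κ i) : MvPolynomial (Fin n) (Polynomial ℤ))
        = ∑ μ : Nat.Partition n, MvPolynomial.C (a μ) *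
            (μ.parts.map (fun k => MvPolynomial.esymm (Fin n) (Polynomial ℤ) k)).prod)
      ∧ ∀ μ : Nat.Partition n,
          (∀ j : ℕ, j + c < Multiset.card μ.parts → (a μ).coeff j = 0)
          ∧ (∀ s ∈ μ.parts, (∀ p ∈ μ.parts, s ≤ p) → ∀ i j : ℕ, i ≤ j →
            j + c + 1 ≤ Multiset.card μ.parts + s →
            0 ≤ (a μ).coeff i ∧ (a μ).coeff i ≤ (a μ).coeff j)
          ∧ (∀ j : ℕ, j ≤ 2 → 0 ≤ (a μ).coeff j)
          ∧ (c = 1 → 4 ≤ E → (a μ).coeff 0 ≤ (a μ).coeff 1 ∧ (a μ).coeff 1 ≤ (a μ).coeff 2) :=
  Pool.Agent.LOW.EX.final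

end Pool.Agent.Results.MP_263316_co.LowCoefficients
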