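import Pool.Agent.Lib.MP_263316_co.SWK.AllE

/-!
The Shareshian-Wachs conjecture (nonnegative, palindromic, unimodal e-coefficients) for a large
class of natural unit interval graphs: peeling off the closed neighbourhood of the first or the
last vertex under a degree condition, down to graphs all of whose blocks are co-bipartite or
contain no induced `K_5` minus an edge.
-/

set_option autoImplicit false

namespace Pool.Agent.Results.MP_263316_co.NeighbourhoodPeeling

/-- The smallest class of vertex sets `U` (induced subgraphs) of the natural unit interval graph of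
`h` (`u < v` adjacent iff `v ≤ h u`) with:
`blocks`: whenever `a < b` in `U` are such that any two elements of `U ∩ [a, b]` with exactly one
  element of `U` between them are adjacent (such a `U ∩ [a, b]` lies in a block of the graph induced
  on `U`, and every block is one), it has no three pairwise nonadjacent vertices or no five
  vertices `u < v < w < y < z` adjacent to each other except for the pair `u`, `z`;
`union`: closed under disjoint unions without edges between the two parts;
`left`: `r` is the first vertex of `U`; every vertex `u` of `U` after which there is no vertex of the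
  closed neighbourhood `N[r]` has at most one more right neighbour outside `N[r]` than it has
  left neighbours; and all subsets of `U \ N[r]` are in the class;
`right`: the mirror image of `left`. -/
inductive Peel {n : ℕ} (h : Fin n → Fin n) : Finset (Fin n) → Prop
  | blocks (U : Finset (Fin n))
      (hU : ∀ a ∈ U, ∀ b ∈ U, a < b →
        (∀ i ∈ U, ∀ j ∈ U, ∀ k ∈ U, a ≤ i → i < j → j < k → k ≤ b →
          (∀ l ∈ U, i < l → l < k → l = j) → k ≤ h i) →
        (∀ u ∈ U, ∀ v ∈ U, ∀ w ∈ U, a ≤ u → u < v → v < w → w ≤ b → ¬ (h u < v ∧ h v < w)) ∨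
        (∀ u ∈ U, ∀ v ∈ U, ∀ w ∈ U, ∀ y ∈ U, ∀ z ∈ U, a ≤ u → u < v → v < w → w < y → y < z →
          z ≤ b → ¬ (y ≤ h u ∧ z ≤ h v ∧ h u < z))) : Peel h U
  | union (U V : Finset (Fin n)) (hUV : ∀ u ∈ U, ∀ v ∈ V, u < v ∧ h u < v)
      (hU : Peel h U) (hV : Peel h V) : Peel h (U ∪ V)
  | left (U : Finset (Fin n)) (r : Fin n) (hr : r ∈ U) (hmin : ∀ u ∈ U, r ≤ u)
      (hdeg : ∀ u ∈ U, (∀ w ∈ U, u < w → h r < w) →
        (U.filter (fun v => u < v ∧ v ≤ h u ∧ h r < v)).card ≤
        (U.filter (fun v => v < u ∧ u ≤ h v)).card + 1)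
      (hV : ∀ V ⊆ U.filter (fun v => h r < v), Peel h V) : Peel h U
  | right (U : Finset (Fin n)) (r : Fin n) (hr : r ∈ U) (hmax : ∀ u ∈ U, u ≤ r)
      (hdeg : ∀ u ∈ U, (∀ w ∈ U, w < u → h w < r) →
        (U.filter (fun v => v < u ∧ u ≤ h v ∧ h v < r)).card ≤
        (U.filter (fun v => u < v ∧ v ≤ h u)).card + 1)
      (hV : ∀ V ⊆ U.filter (fun v => h v < r), Peel h V) : Peel h U

/-- The chromatic quasisymmetric function of the natural unit interval graph of `h`, if its vertex
set is in the class `Peel`. -/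
theorem result : ∀ (n : ℕ) (h : Fin n → Fin n), Monotone h → (∀ i, i ≤ h i) →
    Peel h Finset.univ →
    ∀ E : ℕ, E = (Finset.univ.filter (fun p : Fin n × Fin n => p.1 < p.2 ∧ p.2 ≤ h p.1)).card →
    ∃ a : Nat.Partition n → Polynomial ℤ,
      ((∑ κ ∈ (Finset.univ.filter
            (fun κ : Fin n → Fin n => ∀ i j : Fin n, i < j → j ≤ h i → κ i ≠ κ j)),
          MvPolynomial.C (Polynomial.X ^ ((Finset.univ.filter
            (fun p : Fin n × Fin n => p.1 < p.2 ∧ p.2 ≤ h p.1 ∧ κ p.1 < κ p.2)).card))
            * ∏ i : Fin n, MvPolynomial.X (κ i) : MvPolynomial (Fin n) (Polynomial ℤ))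
        = ∑ μ : Nat.Partition n, MvPolynomial.C (a μ) *
            (μ.parts.map (fun k => MvPolynomial.esymm (Fin n) (Polynomial ℤ) k)).prod)
      ∧ ∀ μ : Nat.Partition n,
          (∀ i : ℕ, 0 ≤ (a μ).coeff i)
          ∧ (∀ i : ℕ, E < i → (a μ).coeff i = 0)
          ∧ (∀ i : ℕ, i ≤ E → (a μ).coeff i = (a μ).coeff (E - i))
          ∧ (∀ i j : ℕ, i ≤ j → 2 * j ≤ E → (a μ).coeff i ≤ (a μ).coeff j) := by
  have key : ∀ (n : ℕ) (h : Fin n → Fin n) (U : Finset (Fin n)), Peel h U →
      Pool.Agent.SWK.NiceE h U := by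
    intro n h U hU
    induction hU with
    | blocks U hU => exact Pool.Agent.SWK.NiceE.blocks U hU
    | union U V hUV _ _ ih1 ih2 => exact Pool.Agent.SWK.NiceE.union U V hUV ih1 ih2
    | left U r hr hmin hdeg _ ih => exact Pool.Agent.SWK.NiceE.left U r hr hmin hdeg ih
    | right U r hr hmax hdeg _ ih => exact Pool.Agent.SWK.NiceE.right U r hr hmax hdeg ih
  intro n h hm hle hP E hE
  exact Pool.Agent.SWK.AllE.final n h hm hle (key n h _ hP) E hE

end Pool.Agent.Results.MP_263316_co.NeighbourhoodPeeling
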