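import Pool.Agent.Lib.MP_263316_co.LV2.All

/-!
The Shareshian-Wachs conjecture (nonnegative, palindromic, unimodal e-coefficients) for all
coefficients of `e_μ`, `μ` with at most one part larger than two, of all natural unit interval graphs.
-/

set_option autoImplicit false

namespace Pool.Agent.Results.MP_263316_co.OnePartAboveTwo

/-- For every natural unit interval order on `n` points (`h` monotone, `i ≤ h i`; `i < j` are
adjacent in the incomparability graph iff `j ≤ h i`), `E` the number of edges: the chromatic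
quasisymmetric function (in `n` variables) is the sum over the partitions `μ` of `n` of
`a μ * e_μ`, and for every `μ` with at most one part larger than two (`μ = (m, 2^b, 1^c)`) the
polynomial `a μ` has nonnegative coefficients, is palindromic with centre `E / 2` and unimodal. -/
theorem result : ∀ (n : ℕ) (h : Fin n → Fin n), Monotone h → (∀ i, i ≤ h i) →
    ∀ E : ℕ, E = (Finset.univ.filter (fun p : Fin n × Fin n => p.1 < p.2 ∧ p.2 ≤ h p.1)).card →
    ∃ a : Nat.Partition n → Polynomial ℤ,
      ((∑ κ ∈ (Finset.univ.filter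
            (fun κ : Fin n → Fin n => ∀ i j : Fin n, i < j → j ≤ h i → κ i ≠ κ j)),
          MvPolynomial.C (Polynomial.X ^ ((Finset.univ.filter
            (fun p : Fin n × Fin n => p.1 < p.2 ∧ p.2 ≤ h p.1 ∧ κ p.1 < κ p.2)).card))
            * ∏ i : Fin n, MvPolynomial.X (κ i) : MvPolynomial (Fin n) (Polynomial ℤ))
        = ∑ μ : Nat.Partition n, MvPolynomial.C (a μ) *
            (μ.parts.map (fun k => MvPolynomial.esymm (Fin n) (Polynomial ℤ) k)).prod)
      ∧ ∀ μ : Nat.Partition n, Multiset.card (μ.parts.filter (fun p => 3 ≤ p)) ≤ 1 →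
          (∀ i : ℕ, 0 ≤ (a μ).coeff i)
          ∧ (∀ i : ℕ, E < i → (a μ).coeff i = 0)
          ∧ (∀ i : ℕ, i ≤ E → (a μ).coeff i = (a μ).coeff (E - i))
          ∧ (∀ i j : ℕ, i ≤ j → 2 * j ≤ E → (a μ).coeff i ≤ (a μ).coeff j) :=
  Pool.Agent.LV2.All.final

end Pool.Agent.Results.MP_263316_co.OnePartAboveTwo
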