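import Pool.Agent.Lib.MP_263316_co.T2.FinT

/-!
The Shareshian-Wachs conjecture (nonnegative, palindromic, unimodal e-coefficients) for the
coefficients of `e_μ`, `μ` with at most two parts larger than two, of natural unit interval graphs
with a degree condition at one end.
-/

set_option autoImplicit false

namespace Pool.Agent.Results.MP_263316_co.TwoPartsAboveTwo

/-- Natural unit interval order on `n` points (`h` monotone, `i ≤ h i`; `i < j` are adjacent in the
incomparability graph iff `j ≤ h i`), `E` the number of edges. Assume that the first vertex `r` has at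
least two neighbours and that every vertex `u ≥ h r` has at most one more right neighbour than it
has left neighbours, or the mirror image of this condition (the last vertex `r` has at least two
neighbours and every vertex `u`, such that no vertex before `u` is adjacent to `r`, has at most one
more left neighbour than it has right neighbours). Then the chromatic quasisymmetric function (in
`n` variables) is the sum over the partitions `μ` of `n` of `a μ * e_μ`, and for every `μ` with at
most two parts larger than two the polynomial `a μ` has nonnegative coefficients, is palindromic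
with centre `E / 2` and unimodal. -/
theorem result : ∀ (n : ℕ) (h : Fin n → Fin n), Monotone h → (∀ i, i ≤ h i) →
    ((∀ r : Fin n, (r : ℕ) = 0 →
        3 ≤ (Finset.univ.filter (fun v : Fin n => v ≤ h r)).card ∧
        ∀ u : Fin n, h r ≤ u → (Finset.univ.filter (fun v : Fin n => u < v ∧ v ≤ h u)).card ≤
          (Finset.univ.filter (fun v : Fin n => v < u ∧ u ≤ h v)).card + 1) ∨
      (∀ r : Fin n, (r : ℕ) + 1 = n →
        3 ≤ (Finset.univ.filter (fun v : Fin n => r ≤ h v)).card ∧
        ∀ u : Fin n, (∀ v : Fin n, v < u → h v < r) →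
          (Finset.univ.filter (fun v : Fin n => v < u ∧ u ≤ h v)).card ≤
            (Finset.univ.filter (fun v : Fin n => u < v ∧ v ≤ h u)).card + 1)) →
    ∀ E : ℕ, E = (Finset.univ.filter (fun p : Fin n × Fin n => p.1 < p.2 ∧ p.2 ≤ h p.1)).card →
    ∃ a : Nat.Partition n → Polynomial ℤ,
      ((∑ κ ∈ (Finset.univ.filter
            (fun κ : Fin n → Fin n => ∀ i j : Fin n, i < j → j ≤ h i → κ i ≠ κ j)),
          MvPolynomial.C (Polynomial.X ^ ((Finset.univ.filter
            (fun p : Fin n × Fin n => p.1 < p.2 ∧ p.2 ≤ h p.1 ∧ κ p.1 < κ p.2)).card))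
            * ∏ i : Fin n, MvPolynomial.X (κ i) : MvPolynomial (Fin n) (Polynomial ℤ))
        = ∑ μ : Nat.Partition n, MvPolynomial.C (a μ) *
            (μ.parts.map (fun k => MvPolynomial.esymm (Fin n) (Polynomial ℤ) k)).prod)
      ∧ ∀ μ : Nat.Partition n, Multiset.card (μ.parts.filter (fun p => 3 ≤ p)) ≤ 2 →
          (∀ i : ℕ, 0 ≤ (a μ).coeff i)
          ∧ (∀ i : ℕ, E < i → (a μ).coeff i = 0)
          ∧ (∀ i : ℕ, i ≤ E → (a μ).coeff i = (a μ).coeff (E - i))
          ∧ (∀ i j : ℕ, i ≤ j → 2 * j ≤ E → (a μ).coeff i ≤ (a μ).coeff j) :=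
  Pool.Agent.T2.final

end Pool.Agent.Results.MP_263316_co.TwoPartsAboveTwo
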